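import Pool.Agent.Leo3.Stmts

set_option autoImplicit false

open NumberField Module Polynomial IntermediateField

namespace Pool.Agent.Leo3.H49

/-- The sextic field is Galois over `ℚ`. -/
theorem galois_sextic (K F L : Type) [Field K] [NumberField K] [Field F] [NumberField F] [Field L]
    [NumberField L] [Algebra K L] [Algebra F L] [IsGalois F L] (hK : finrank ℚ K = 3)
    (hng : ¬ IsGalois ℚ K) (hKL : finrank K L = 2) (hF : finrank ℚ F = 2) (hFL : finrank F L = 3) :
    IsGalois ℚ L := by
  obtain ⟨ξ, hξ⟩ := Field.exists_primitive_element ℚ K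
  set f := minpoly ℚ ξ with hf
  have hint : IsIntegral ℚ ξ := IsIntegral.of_finite ℚ ξ
  have hfdeg : f.natDegree = 3 := by
    rw [hf, ← IntermediateField.adjoin.finrank hint, hξ, IntermediateField.finrank_top', hK]
  set x : L := algebraMap K L ξ with hx
  have hxint : IsIntegral F x := IsIntegral.of_finite F x
  have hroot : aeval x f = 0 := by
    have h1 : aeval ξ f = 0 := minpoly.aeval ℚ ξ
    have h2 : aeval x f = algebraMap K L (aeval ξ f) := by
      rw [hx, aeval_algebraMap_apply]
    rw [h2, h1, map_zero]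
  have hL6 : finrank ℚ L = 6 := by
    rw [← finrank_mul_finrank ℚ K L, hK, hKL]
  have hminx : minpoly ℚ x = f := by
    rw [hx, hf]
    exact minpoly.algebraMap_eq (algebraMap K L).injective ξ
  have hdvd : minpoly F x ∣ f.map (algebraMap ℚ F) := by
    apply minpoly.dvd
    rw [aeval_map_algebraMap]
    exact hroot
  have hmon : f.Monic := minpoly.monic hint
  have hdeg3 : (minpoly F x).natDegree = 3 := by
    have h1 : (minpoly F x).natDegree ∣ 3 := by
      rw [← hFL]
      exact minpoly.degree_dvd hxint
    rcases (Nat.dvd_prime Nat.prime_three).1 h1 with h2 | h2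
    · exfalso
      have h3 : x ∈ (algebraMap F L).range := minpoly.natDegree_eq_one_iff.1 h2
      obtain ⟨y, hy⟩ := h3
      have h4 : minpoly ℚ y = f := by
        rw [← hminx, ← hy]
        exact (minpoly.algebraMap_eq (algebraMap F L).injective y).symm
      have h5 : (minpoly ℚ y).natDegree ∣ finrank ℚ F :=
        minpoly.degree_dvd (IsIntegral.of_finite ℚ y)
      rw [h4, hfdeg, hF] at h5
      norm_num at h5
    · exact h2
  have hmap : minpoly F x = f.map (algebraMap ℚ F) := by
    refine (Polynomial.eq_of_monic_of_dvd_of_natDegree_le (minpoly.monic hxint)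
      (hmon.map _) hdvd ?_).symm ▸ rfl
    rw [natDegree_map, hfdeg, hdeg3]
  have hsplit : (f.map (algebraMap ℚ L)).Splits := by
    have h1 : ((minpoly F x).map (algebraMap F L)).Splits := Normal.splits inferInstance x
    rw [hmap, Polynomial.map_map, ← IsScalarTower.algebraMap_eq ℚ F L] at h1
    exact h1
  set M : IntermediateField ℚ L := IntermediateField.adjoin ℚ (f.rootSet L) with hM
  haveI : IsSplittingField ℚ M f := IntermediateField.adjoin_rootSet_isSplittingField hsplit
  haveI : IsGalois ℚ M := IsGalois.of_separable_splitting_field (p := f)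
    (minpoly.irreducible hint).separable
  have hxM : x ∈ M := by
    apply IntermediateField.subset_adjoin
    rw [mem_rootSet]
    exact ⟨hmon.ne_zero, hroot⟩
  have hle : ℚ⟮x⟯ ≤ M := by
    rw [IntermediateField.adjoin_simple_le_iff]
    exact hxM
  have hx3 : finrank ℚ ℚ⟮x⟯ = 3 := by
    rw [IntermediateField.adjoin.finrank (IsIntegral.of_finite ℚ x), hminx, hfdeg]
  by_cases htop : M = ⊤
  · have e : M ≃ₐ[ℚ] L := (IntermediateField.equivOfEq htop).trans IntermediateField.topEquiv
    exact IsGalois.of_algEquiv e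
  · exfalso
    apply hng
    have h1 : finrank ℚ M ∣ 6 := by
      rw [← hL6]
      exact ⟨finrank M L, (finrank_mul_finrank ℚ M L).symm⟩
    have h2 : 3 ≤ finrank ℚ M := by
      rw [← hx3]
      exact IntermediateField.finrank_le_of_le_right hle
    have h3 : finrank ℚ M ≠ 6 := by
      intro h
      apply htop
      apply IntermediateField.eq_of_le_of_finrank_eq le_top
      rw [h, IntermediateField.finrank_top', hL6]
    have h4 : finrank ℚ M = 3 := by
      have h5 : finrank ℚ M ≤ 6 := Nat.le_of_dvd (by norm_num) h1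
      interval_cases h : finrank ℚ M <;> simp_all
    have h5 : ℚ⟮x⟯ = M := IntermediateField.eq_of_le_of_finrank_eq hle (by rw [hx3, h4])
    haveI : IsGalois ℚ ℚ⟮x⟯ := by
      rw [h5]
      infer_instance
    have e0 : (IsScalarTower.toAlgHom ℚ K L).fieldRange = ℚ⟮x⟯ := by
      rw [AlgHom.fieldRange_eq_map, ← hξ, IntermediateField.adjoin_map, Set.image_singleton]
      rfl
    have e1 : K ≃ₐ[ℚ] (IsScalarTower.toAlgHom ℚ K L).fieldRange :=
      AlgEquiv.ofInjectiveField (IsScalarTower.toAlgHom ℚ K L)
    have e2 : K ≃ₐ[ℚ] ℚ⟮x⟯ := e1.trans (IntermediateField.equivOfEq e0)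
    exact IsGalois.of_algEquiv e2.symm

end Pool.Agent.Leo3.H49
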