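import Pool.Agent.Helper49_Leo3.Quad
import Pool.Agent.Helper49_Leo3.Lfg

set_option autoImplicit false

open NumberField Module Polynomial
open Pool.Agent.Helper85_Leo

namespace Pool.Agent.Leo3.H49

/-- The properties of the field attached to `D`. -/
def GoodD (D : ℤ) : Prop :=
  ∃ (K : Type) (_ : Field K) (_ : NumberField K),
      finrank ℚ K = 3 ∧ IsTotallyReal K ∧ ¬ IsGalois ℚ K ∧ discr K = D ∧
      (∀ (E : Type) [Field E] [NumberField E] [Algebra K E] [IsGalois K E] (k : ℕ),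
        finrank K E = 3 ^ k → UnrOut K E → LeopoldtAt E 3) ∧
      ∃ (L : Type) (_ : Field L) (_ : NumberField L) (_ : Algebra K L),
        finrank K L = 2 ∧ IsGalois ℚ L ∧
        ∀ (E : Type) [Field E] [NumberField E] [Algebra L E] [IsGalois L E] (k : ℕ),
          finrank L E = 3 ^ k → UnrOut L E → LeopoldtAt E 3

/-- `m` has a form. -/
def HasForm (m : ℕ) : Prop :=
  ∃ a b c d : ℤ, a ≠ 0 ∧ 0 < hP a b c ∧ 3 * (hP a b c) ^ 2 ≤ m ∧ hM a b c d = m

theorem neg_not_sq {m : ℕ} (hm : 0 < m) (x : ℚ) : x ^ 2 ≠ ((-(m : ℤ) : ℤ) : ℚ) := by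
  intro h
  have h1 : (0 : ℚ) ≤ x ^ 2 := sq_nonneg x
  have h2 : (0 : ℚ) < m := by exact_mod_cast hm
  rw [h] at h1
  push_cast at h1
  linarith

theorem good_field (gup : GupStmt) (tow : TowStmt) (dwn : DwnStmt) (leo : LeoStmt) (nmf : NmfStmt)
    (red : RedStmt) (ref : RefStmt) (eis : EisStmt) (frm : FrmStmt) (dsc : DscStmt) (trl : TrlStmt)
    (lfd : LfdStmt) (unr : UnrStmt) (m : ℕ) (hsq : Squarefree m) (hm : m % 24 = 7)
    (hform : ¬ HasForm m) :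
    ∃ D n : ℤ, n ≠ 0 ∧ D * n ^ 2 = 108 * m ∧ GoodD D := by
  have hmpos : 0 < m := by omega
  obtain ⟨F', iF', nF', s, hF'2, hs⟩ := exists_quad (-(m : ℤ)) (neg_not_sq hmpos)
  have hs' : s ^ 2 = -(m : F') := by rw [hs]; push_cast; ring
  have h3 : ¬ 3 ∣ Fintype.card (ClassGroup (𝓞 F')) := fun h =>
    hform (eis F' m s hF'2 hs' hsq (by omega) h)
  obtain ⟨a, b, c, d, hirr, hM⟩ := frm F' m s hF'2 hs' hsq hm h3
  obtain ⟨K, F, L, iK, nK, iF, nF, iL, nL, aKL, aFL, ξ, r, hK3, hξ, hgal, hF2, hr, hKL, hFL, hFLg⟩ :=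
    lfd a b c d m hsq hm hirr hM
  obtain ⟨n, hn0, hn⟩ := dsc K ξ a b c d m hK3 hirr hM hξ
  have htr := trl K ξ a b c d m hmpos hK3 hirr hM hξ
  have hWF : W F := red F m r hF2 hr hsq hm fun t₀ s₀ hbad =>
    h3 (ref F' m s hF'2 hs' hsq hm ⟨t₀, s₀, hbad⟩)
  have hNF : NoMu F := (nmf F m r hF2 hr (by omega)).1
  have hξL : (a : L) * (algebraMap K L ξ) ^ 3 + 3 * b * (algebraMap K L ξ) ^ 2 +
      3 * c * (algebraMap K L ξ) + d = 0 := by
    have h := congrArg (algebraMap K L) hξ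
    simp only [map_add, map_mul, map_pow, map_intCast, map_zero] at h
    have h3 : (algebraMap K L) 3 = 3 := map_ofNat (algebraMap K L) 3
    rw [h3] at h
    exact h
  have hunr := unr F L a b c d m (algebraMap K L ξ) hF2 hFL hsq hm hirr hM hξL
  obtain ⟨hNL, hWL⟩ := gup F L hFL hunr hNF hWF
  obtain ⟨hNK, hWK⟩ := dwn K L hKL hNL hWL
  refine ⟨discr K, n, hn0, hn, K, iK, nK, hK3, htr, hgal, rfl, ?_, L, iL, nL, aKL, hKL,
    galois_sextic K F L hK3 hgal hKL hF2 hFL, ?_⟩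
  · intro E iE nE aE gE k hk hunrE
    obtain ⟨hNE, hWE⟩ := tow K E k hk hunrE hNK hWK
    exact leo E hNE hWE
  · intro E iE nE aE gE k hk hunrE
    obtain ⟨hNE, hWE⟩ := tow L E k hk hunrE hNL hWL
    exact leo E hNE hWE

/-- `3m` is determined by a discriminant. -/
theorem m_unique {m m' : ℕ} (hsq : Squarefree m) (hm : m % 24 = 7) (hsq' : Squarefree m')
    (hm' : m' % 24 = 7) {D n n' : ℤ} (hn : n ≠ 0) (hn' : n' ≠ 0) (h : D * n ^ 2 = 108 * m)
    (h' : D * n' ^ 2 = 108 * m') : m = m' := by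
  have h1 : (m : ℤ) * n' ^ 2 = m' * n ^ 2 := by
    have : (108 : ℤ) * (m * n' ^ 2) = 108 * (m' * n ^ 2) := by
      calc (108 : ℤ) * (m * n' ^ 2) = (108 * m) * n' ^ 2 := by ring
        _ = (D * n ^ 2) * n' ^ 2 := by rw [h]
        _ = (D * n' ^ 2) * n ^ 2 := by ring
        _ = (108 * m') * n ^ 2 := by rw [h']
        _ = 108 * (m' * n ^ 2) := by ring
    linarith
  have h2 : m * n'.natAbs ^ 2 = m' * n.natAbs ^ 2 := by
    have := congrArg Int.natAbs h1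
    simpa [Int.natAbs_mul, Int.natAbs_pow] using this
  have hN : n.natAbs ≠ 0 := Int.natAbs_ne_zero.2 hn
  have hN' : n'.natAbs ≠ 0 := Int.natAbs_ne_zero.2 hn'
  have hm0 : m ≠ 0 := by omega
  have hm0' : m' ≠ 0 := by omega
  refine Nat.eq_of_factorization_eq hm0 hm0' fun p => ?_
  have h3 := congrArg (fun x => x.factorization p) h2
  simp only [Nat.factorization_mul hm0 (pow_ne_zero 2 hN'),
    Nat.factorization_mul hm0' (pow_ne_zero 2 hN), Nat.factorization_pow, Finsupp.add_apply,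
    Finsupp.smul_apply, smul_eq_mul] at h3
  have h4 := (Nat.squarefree_iff_factorization_le_one hm0).1 hsq p
  have h5 := (Nat.squarefree_iff_factorization_le_one hm0').1 hsq' p
  omega

theorem fin2 (gup : GupStmt) (tow : TowStmt) (dwn : DwnStmt) (leo : LeoStmt) (nmf : NmfStmt)
    (red : RedStmt) (ref : RefStmt) (eis : EisStmt) (frm : FrmStmt) (dsc : DscStmt) (trl : TrlStmt)
    (lfd : LfdStmt) (unr : UnrStmt) (cnt : CntStmt) (sqf : SqfStmt) :
    ∃ X₀ : ℝ, ∀ X : ℝ, X₀ ≤ X →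
      1 / 216000 * X ≤ ({D : ℤ | 0 < D ∧ (D : ℝ) ≤ X ∧ GoodD D}.ncard : ℝ) := by
  obtain ⟨N₀, hN₀⟩ := cnt
  obtain ⟨N₁, hN₁⟩ := sqf
  refine ⟨216 * ((N₀ : ℝ) + N₁ + 1), fun X hX => ?_⟩
  have hX0 : (216 : ℝ) ≤ X := by
    have h1 : (0 : ℝ) ≤ N₀ := Nat.cast_nonneg _
    have h2 : (0 : ℝ) ≤ N₁ := Nat.cast_nonneg _
    linarith
  set N : ℕ := ⌊X / 108⌋₊ with hN
  have hNle : (N : ℝ) ≤ X / 108 := Nat.floor_le (by positivity)
  have hNge : X / 108 - 1 < N := by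
    have := Nat.lt_floor_add_one (X / 108)
    linarith
  have hNX : X / 216 ≤ N := by linarith
  have hN0' : N₀ ≤ N := by
    have : (N₀ : ℝ) ≤ N := by
      have h2 : (0 : ℝ) ≤ N₁ := Nat.cast_nonneg _
      linarith
    exact_mod_cast this
  have hN1' : N₁ ≤ N := by
    have : (N₁ : ℝ) ≤ N := by
      have h2 : (0 : ℝ) ≤ N₀ := Nat.cast_nonneg _
      linarith
    exact_mod_cast this
  have hc := hN₀ N hN0'
  have hs := hN₁ N hN1'
  set A : Set ℕ := {m : ℕ | m ≤ N ∧ m % 24 = 7 ∧ HasForm m} with hA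
  set B : Set ℕ := {m : ℕ | m ≤ N ∧ m % 24 = 7 ∧ Squarefree m} with hB
  have hAfin : A.Finite := (Set.finite_Iic N).subset fun m hm => hm.1
  have hBfin : B.Finite := (Set.finite_Iic N).subset fun m hm => hm.1
  have hdiff : (B.ncard : ℝ) - A.ncard ≤ (B \ A).ncard := by
    have h1 := Set.ncard_le_ncard_sdiff_add_ncard B A hAfin
    have h2 : (B.ncard : ℝ) ≤ (B \ A).ncard + A.ncard := by exact_mod_cast h1
    linarith
  have hcA : (A.ncard : ℝ) ≤ 3 / 100 * N := hc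
  have hlow : X / 216000 ≤ ((B \ A).ncard : ℝ) := by linarith
  have key : ∀ m : ℕ, m ∈ B \ A → ∃ D n : ℤ, n ≠ 0 ∧ D * n ^ 2 = 108 * m ∧ GoodD D := by
    rintro m ⟨⟨h1, h2, h3⟩, h4⟩
    exact good_field gup tow dwn leo nmf red ref eis frm dsc trl lfd unr m h3 h2
      fun h => h4 ⟨h1, h2, h⟩
  choose! D n hn0 hn hD using key
  set T : Set ℤ := {D : ℤ | 0 < D ∧ (D : ℝ) ≤ X ∧ GoodD D} with hT
  have hTfin : T.Finite := by
    refine (Set.finite_Icc (0 : ℤ) ⌊X⌋).subset ?_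
    rintro x ⟨h1, h2, -⟩
    exact ⟨h1.le, Int.le_floor.2 h2⟩
  have hmaps : ∀ m ∈ B \ A, D m ∈ T := by
    intro m hm
    have h1 := hn m hm
    have hn2 : (0 : ℤ) < n m ^ 2 := by
      have := hn0 m hm
      positivity
    have hmpos : (0 : ℤ) < m := by
      have h24 := hm.1.2.1
      have h0 : 0 < m := by omega
      exact_mod_cast h0
    have hDpos : 0 < D m := by
      by_contra hneg
      push Not at hneg
      have : D m * n m ^ 2 ≤ 0 := mul_nonpos_of_nonpos_of_nonneg hneg hn2.le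
      rw [h1] at this
      linarith
    have hDle : D m ≤ 108 * m := by
      rw [← h1]
      exact le_mul_of_one_le_right hDpos.le hn2
    refine ⟨hDpos, ?_, hD m hm⟩
    have h3 : ((D m : ℤ) : ℝ) ≤ 108 * m := by exact_mod_cast hDle
    have h4 : (m : ℝ) ≤ N := by exact_mod_cast hm.1.1
    linarith
  have hinj : Set.InjOn D (B \ A) := by
    intro m hm m' hm' heq
    refine m_unique hm.1.2.2 hm.1.2.1 hm'.1.2.2 hm'.1.2.1 (hn0 m hm) (hn0 m' hm') (hn m hm) ?_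
    rw [heq]
    exact hn m' hm'
  have hfinal := Set.ncard_le_ncard_of_injOn D hmaps hinj hTfin
  have hfinal' : ((B \ A).ncard : ℝ) ≤ T.ncard := by exact_mod_cast hfinal
  calc 1 / 216000 * X = X / 216000 := by ring
    _ ≤ ((B \ A).ncard : ℝ) := hlow
    _ ≤ T.ncard := hfinal'

theorem fin (gup : GupStmt) (tow : TowStmt) (dwn : DwnStmt) (leo : LeoStmt) (nmf : NmfStmt)
    (red : RedStmt) (ref : RefStmt) (eis : EisStmt) (frm : FrmStmt) (dsc : DscStmt) (trl : TrlStmt)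
    (lfd : LfdStmt) (unr : UnrStmt) (cnt : CntStmt) (sqf : SqfStmt) : FinStmt := by
  obtain ⟨X₀, h⟩ := fin2 gup tow dwn leo nmf red ref eis frm dsc trl lfd unr cnt sqf
  refine ⟨1 / 216000, by norm_num, X₀, fun X hX => (h X hX).trans ?_⟩
  have hfin : {D : ℤ | 0 < D ∧ (D : ℝ) ≤ X ∧ ∃ (K : Type) (_ : Field K) (_ : NumberField K),
      finrank ℚ K = 3 ∧ IsTotallyReal K ∧ ¬ IsGalois ℚ K ∧ discr K = D ∧
      ∀ (E : Type) [Field E] [NumberField E] [Algebra K E] [IsGalois K E] (k : ℕ),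
        finrank K E = 3 ^ k → UnrOut K E → LeopoldtAt E 3}.Finite := by
    refine (Set.finite_Icc (0 : ℤ) ⌊X⌋).subset ?_
    rintro x ⟨h1, h2, -⟩
    exact ⟨h1.le, Int.le_floor.2 h2⟩
  have hle := Set.ncard_le_ncard (s := {D : ℤ | 0 < D ∧ (D : ℝ) ≤ X ∧ GoodD D}) (by
    rintro D ⟨h1, h2, K, iK, nK, h3, h4, h5, h6, h7, -⟩
    exact ⟨h1, h2, K, iK, nK, h3, h4, h5, h6, h7⟩) hfin
  exact_mod_cast hle

end Pool.Agent.Leo3.H49
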