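import Pool.Agent.Helper49_Leo3.Cnt
import Pool.Agent.Helper49_Leo3.Fin
import Pool.Agent.Helper11_Leo3.Loc
import Pool.Agent.Helper21_Leo3.Dwn
import Pool.Agent.Helper21_Leo3.Tow
import Pool.Agent.Helper26_Leo3.Eis
import Pool.Agent.Helper40_Leo3.SUA
import Pool.Agent.Helper43_Leo3.Frm
import Pool.Agent.Helper43_Leo3.Sup
import Pool.Agent.Helper47_Leo3.Dsc
import Pool.Agent.Helper51_Leo3.Cub
import Pool.Agent.Helper51_Leo3.Sqf
import Pool.Agent.Helper57_Leo3.Qnm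
import Pool.Agent.Helper59_Leo3.Hil
import Pool.Agent.Helper60_Leo3.Red
import Pool.Agent.Helper60_Leo3.Ref
import Pool.Agent.Helper65_Leo3.Crt
import Pool.Agent.Helper76_Leo3.Lfd
import Pool.Agent.Helper76_Leo3.Trl
import Pool.Agent.Helper76_Leo3.Unr
import Pool.Agent.Helper83_Leo3.Gup
import Pool.Agent.Helper90_Leo3.Qua

set_option autoImplicit false

namespace Pool.Agent.Leo3.H49

theorem all_of (leo : LeoStmt) (nmf : NmfStmt) :
    ∃ X₀ : ℝ, ∀ X : ℝ, X₀ ≤ X →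
      1 / 216000 * X ≤ ({D : ℤ | 0 < D ∧ (D : ℝ) ≤ X ∧ GoodD D}.ncard : ℝ) :=
  fin2 (H83.gup H11.loc) (H21.tow (H83.gup H11.loc)) H21.dwn leo nmf (H60.red nmf)
    (H60.ref H59.hil) (H26.eis H90.qua H51.cub) (H43.frm H90.qua H51.cub) H47.dsc H76.trl H76.lfd
    H76.unr (cnt H43.sup H40.sua_stmt H57.qnm) H51.sqf

end Pool.Agent.Leo3.H49
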