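import Pool.Agent.Helper49_Leo3.Qct

set_option autoImplicit false

open Module MeasureTheory

namespace Pool.Agent.Leo3.H49

theorem hh_continuous (N a : ℝ) : Continuous fun P : ℝ => hh N a P := by
  unfold hh
  fun_prop

/-- number of `P`. -/
theorem cardP (N a r : ℕ) (ha : 1 ≤ a) :
    (((Finset.range (N + 1)).filter
      (fun P => 1 ≤ P ∧ 3 * P ^ 2 ≤ N ∧ P % (6 * a) = r)).card : ℝ) ≤
      Real.sqrt N / (6 * a) + 1 := by
  have h := ncard_ap (α := ℕ)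
    (((Finset.range (N + 1)).filter (fun P => 1 ≤ P ∧ 3 * P ^ 2 ≤ N ∧ P % (6 * a) = r) : Finset ℕ) :
      Set ℕ) (fun P => (P : ℤ)) (6 * a) (by omega) 0 (Real.sqrt N) (Real.sqrt_nonneg _)
      (by intro x _ y _ h; exact_mod_cast (show ((x : ℕ) : ℤ) = (y : ℕ) from h)) (by intro x _; positivity) ?_ ?_
  · have h2 := h.2
    rw [Set.ncard_coe_finset] at h2
    push_cast at h2
    simpa using h2
  · intro P hP
    rw [Finset.mem_coe, Finset.mem_filter] at hP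
    have h1 : P ^ 2 ≤ N := by nlinarith [hP.2.2.1]
    have h2 : ((P : ℕ) : ℝ) ^ 2 ≤ N := by exact_mod_cast h1
    simp only [Int.cast_natCast]
    exact Real.le_sqrt_of_sq_le h2
  · intro x hx y hy
    rw [Finset.mem_coe, Finset.mem_filter] at hx hy
    have h1 : x ≡ y [MOD (6 * a)] := by
      unfold Nat.ModEq
      rw [hx.2.2.2, hy.2.2.2]
    have h2 : (x : ℤ) ≡ y [ZMOD ((6 * a : ℕ) : ℤ)] := (Int.natCast_modEq_iff).2 h1
    exact (Int.modEq_iff_dvd).1 h2.symm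

/-- the bound `B a`. -/
noncomputable def Bd (N a : ℕ) : ℝ :=
  (1 / (6 * a) * (∫ P in (0 : ℝ)..Real.sqrt (N / 3), hh N a P) + a * Real.sqrt N) /
    (6 * (a : ℝ) ^ 2) + (Real.sqrt N / (6 * a) + 1)

theorem Bd_spec (sup : SupStmt) (N a r : ℕ) (ha : 1 ≤ a) :
    ∑ P ∈ (Finset.range (N + 1)).filter
        (fun P => 1 ≤ P ∧ 3 * P ^ 2 ≤ N ∧ P % (6 * a) = r), (hh N a P / (6 * (a : ℝ) ^ 2) + 1) ≤
      Bd N a := by
  rw [Finset.sum_add_distrib, ← Finset.sum_div, Finset.sum_const, nsmul_eq_mul, mul_one]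
  unfold Bd
  have h1 := sup N a r ha
  have h2 := cardP N a r ha
  have h3 : (0 : ℝ) < 6 * (a : ℝ) ^ 2 := by positivity
  have h4 := div_le_div_of_nonneg_right h1 h3.le
  linarith

/-- one term. -/
theorem term_le (N a : ℕ) (ha : 1 ≤ a) :
    3 * (if a % 2 = 1 then (a : ℝ) else (a : ℝ) / 2) * Bd N a ≤
      (if a % 2 = 1 then (1 / 12 : ℝ) else 1 / 24) *
        (∫ P in (0 : ℝ)..Real.sqrt (N / 3), hh N a P / (a : ℝ) ^ 2) +
      (Real.sqrt N + 3 * a) := by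
  have ha0 : (0 : ℝ) < a := by exact_mod_cast ha
  have hs : 0 ≤ Real.sqrt N := Real.sqrt_nonneg _
  rw [intervalIntegral.integral_div]
  set I := ∫ P in (0 : ℝ)..Real.sqrt (N / 3), hh N a P with hI
  unfold Bd
  split_ifs with h
  · have e : 3 * (a : ℝ) * ((1 / (6 * a) * I + a * Real.sqrt N) / (6 * (a : ℝ) ^ 2) +
        (Real.sqrt N / (6 * a) + 1)) = 1 / 12 * (I / (a : ℝ) ^ 2) + (Real.sqrt N + 3 * a) := by
      field_simp
      ring
    rw [e]
  · have e : 3 * ((a : ℝ) / 2) * ((1 / (6 * a) * I + a * Real.sqrt N) / (6 * (a : ℝ) ^ 2) +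
        (Real.sqrt N / (6 * a) + 1)) =
        1 / 24 * (I / (a : ℝ) ^ 2) + (Real.sqrt N / 2 + 3 * a / 2) := by
      field_simp
      ring
    rw [e]
    linarith

theorem min_bound {N P : ℝ} (hN : 0 < N) (hP : 0 < P) :
    min (2 * P ^ (3 / 2 : ℝ)) (N / (2 * P ^ (3 / 2 : ℝ))) ≤ N ^ (3 / 4 : ℝ) * P ^ (-(3 / 4) : ℝ) := by
  set x := 2 * P ^ (3 / 2 : ℝ) with hx
  have hx0 : 0 < x := by positivity
  set y := N / x with hy
  have hy0 : 0 < y := by positivity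
  have hmin0 : 0 < min x y := lt_min hx0 hy0
  have h1 : min x y ≤ x ^ (1 / 4 : ℝ) * y ^ (3 / 4 : ℝ) := by
    calc min x y = (min x y) ^ (1 / 4 + 3 / 4 : ℝ) := by norm_num
      _ = (min x y) ^ (1 / 4 : ℝ) * (min x y) ^ (3 / 4 : ℝ) := Real.rpow_add hmin0 _ _
      _ ≤ x ^ (1 / 4 : ℝ) * y ^ (3 / 4 : ℝ) := by
          refine mul_le_mul ?_ ?_ (by positivity) (by positivity)
          · exact Real.rpow_le_rpow hmin0.le (min_le_left _ _) (by norm_num)
          · exact Real.rpow_le_rpow hmin0.le (min_le_right _ _) (by norm_num)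
  refine h1.trans ?_
  have h2 : x ^ (1 / 4 : ℝ) * y ^ (3 / 4 : ℝ) = N ^ (3 / 4 : ℝ) * x ^ (-(1 / 2) : ℝ) := by
    have h0 : N ^ (3 / 4 : ℝ) / x ^ (3 / 4 : ℝ) = N ^ (3 / 4 : ℝ) * x ^ (-(3 / 4) : ℝ) := by
      rw [Real.rpow_neg hx0.le]
      rfl
    rw [hy, Real.div_rpow hN.le hx0.le, h0]
    have h3 : x ^ (1 / 4 : ℝ) * x ^ (-(3 / 4) : ℝ) = x ^ (-(1 / 2) : ℝ) := by
      rw [← Real.rpow_add hx0]
      norm_num
    calc x ^ (1 / 4 : ℝ) * (N ^ (3 / 4 : ℝ) * x ^ (-(3 / 4) : ℝ))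
        = N ^ (3 / 4 : ℝ) * (x ^ (1 / 4 : ℝ) * x ^ (-(3 / 4) : ℝ)) := by ring
      _ = _ := by rw [h3]
  rw [h2]
  refine mul_le_mul_of_nonneg_left ?_ (by positivity)
  have h4 : P ^ (-(3 / 4) : ℝ) = (P ^ (3 / 2 : ℝ)) ^ (-(1 / 2) : ℝ) := by
    rw [← Real.rpow_mul hP.le]
    norm_num
  rw [h4]
  refine Real.rpow_le_rpow_of_nonpos (by positivity) ?_ (by norm_num)
  rw [hx]
  have : 0 < P ^ (3 / 2 : ℝ) := by positivity
  linarith

/-- the main term. -/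
theorem main_term (sua : SuaStmt) (N : ℕ) (hN : 1 ≤ N) (A : Finset ℕ)
    (hA : A ⊆ (Finset.range (N + 1)).filter (fun a => 1 ≤ a)) :
    ∑ a ∈ A, (if a % 2 = 1 then (1 / 12 : ℝ) else 1 / 24) *
        (∫ P in (0 : ℝ)..Real.sqrt (N / 3), hh N a P / (a : ℝ) ^ 2) ≤
      1 / 8 * (Real.pi / 4 * (N / (2 * Real.sqrt 3)) +
        (N : ℝ) ^ (3 / 4 : ℝ) * (4 * (Real.sqrt (N / 3)) ^ (1 / 4 : ℝ))) := by
  have hN0 : (0 : ℝ) < N := by exact_mod_cast hN
  set s := Real.sqrt ((N : ℝ) / 3) with hs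
  have hs0 : 0 < s := Real.sqrt_pos.2 (by positivity)
  have hs2 : s ^ 2 = N / 3 := Real.sq_sqrt (by positivity)
  have hint : ∀ a : ℕ, IntervalIntegrable (fun P : ℝ => hh N a P / (a : ℝ) ^ 2) volume 0 s :=
    fun a => ((hh_continuous N a).div_const _).intervalIntegrable _ _
  have e1 : ∑ a ∈ A, (if a % 2 = 1 then (1 / 12 : ℝ) else 1 / 24) *
        (∫ P in (0 : ℝ)..s, hh N a P / (a : ℝ) ^ 2) =
      ∫ P in (0 : ℝ)..s, ∑ a ∈ A, (if a % 2 = 1 then (1 / 12 : ℝ) else 1 / 24) *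
        (hh N a P / (a : ℝ) ^ 2) := by
    rw [intervalIntegral.integral_finsetSum]
    · refine Finset.sum_congr rfl fun a _ => ?_
      rw [intervalIntegral.integral_const_mul]
    · intro a _
      exact (hint a).const_mul _
  rw [e1]
  have e2 : ∫ P in (0 : ℝ)..s, (1 / 8 * (Real.pi / 4 * (Real.sqrt N - Real.sqrt 3 * P) +
      (N : ℝ) ^ (3 / 4 : ℝ) * P ^ (-(3 / 4) : ℝ))) =
      1 / 8 * (Real.pi / 4 * (N / (2 * Real.sqrt 3)) +
        (N : ℝ) ^ (3 / 4 : ℝ) * (4 * s ^ (1 / 4 : ℝ))) := by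
    have i1 : IntervalIntegrable (fun P : ℝ => Real.pi / 4 * (Real.sqrt N - Real.sqrt 3 * P))
        volume 0 s := by
      apply Continuous.intervalIntegrable
      fun_prop
    have i2 : IntervalIntegrable (fun P : ℝ => (N : ℝ) ^ (3 / 4 : ℝ) * P ^ (-(3 / 4) : ℝ))
        volume 0 s := (intervalIntegral.intervalIntegrable_rpow' (by norm_num)).const_mul _
    rw [intervalIntegral.integral_const_mul, intervalIntegral.integral_add i1 i2,
      intervalIntegral.integral_const_mul, intervalIntegral.integral_const_mul,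
      integral_rpow (Or.inl (by norm_num))]
    have i3 : ∫ P in (0 : ℝ)..s, (Real.sqrt N - Real.sqrt 3 * P) = N / (2 * Real.sqrt 3) := by
      rw [intervalIntegral.integral_sub (by simp) (by
        apply Continuous.intervalIntegrable; fun_prop), intervalIntegral.integral_const,
        intervalIntegral.integral_const_mul, integral_id]
      have h3 : Real.sqrt 3 ^ 2 = 3 := Real.sq_sqrt (by norm_num)
      have h3' : 0 < Real.sqrt 3 := Real.sqrt_pos.2 (by norm_num)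
      have h5 : Real.sqrt N = s * Real.sqrt 3 := by
        rw [hs, ← Real.sqrt_mul (by positivity)]
        congr 1
        field_simp
      simp only [sub_zero, smul_eq_mul]
      rw [h5]
      have h6 : (N : ℝ) = 3 * s ^ 2 := by rw [hs2]; field_simp
      rw [h6]
      field_simp
      rw [h3]
      ring
    rw [i3]
    have i4 : (s ^ (-(3 / 4) + 1 : ℝ) - 0 ^ (-(3 / 4) + 1 : ℝ)) / (-(3 / 4) + 1) =
        4 * s ^ (1 / 4 : ℝ) := by
      rw [Real.zero_rpow (by norm_num)]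
      norm_num
      ring
    rw [i4]
  rw [← e2]
  have hcont : Continuous fun P : ℝ => ∑ a ∈ A, (if a % 2 = 1 then (1 / 12 : ℝ) else 1 / 24) *
        (hh N a P / (a : ℝ) ^ 2) :=
    continuous_finsetSum _ fun a _ => continuous_const.mul ((hh_continuous N a).div_const _)
  have hint2 : IntervalIntegrable (fun P : ℝ => (1 / 8 * (Real.pi / 4 * (Real.sqrt N -
      Real.sqrt 3 * P) + (N : ℝ) ^ (3 / 4 : ℝ) * P ^ (-(3 / 4) : ℝ)))) volume 0 s := by
    have i1 : IntervalIntegrable (fun P : ℝ => Real.pi / 4 * (Real.sqrt N - Real.sqrt 3 * P))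
        volume 0 s := by
      apply Continuous.intervalIntegrable
      fun_prop
    have i2 : IntervalIntegrable (fun P : ℝ => (N : ℝ) ^ (3 / 4 : ℝ) * P ^ (-(3 / 4) : ℝ))
        volume 0 s := (intervalIntegral.intervalIntegrable_rpow' (by norm_num)).const_mul _
    exact (i1.add i2).const_mul _
  refine intervalIntegral.integral_mono_on_of_le_Ioo hs0.le (hcont.intervalIntegrable _ _) hint2 ?_
  intro P hP
  have hP0 : 0 < P := hP.1
  have hP3 : 3 * P ^ 2 ≤ N := by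
    have h1 : P ^ 2 ≤ s ^ 2 := by
      apply pow_le_pow_left₀ hP0.le hP.2.le
    rw [hs2] at h1
    linarith
  have hnn : ∀ a : ℕ, 0 ≤ hh N a P / (a : ℝ) ^ 2 := fun a =>
    div_nonneg (hh_nonneg hP3) (sq_nonneg _)
  have hodd := sua N P hP0 hP3 1 (N + 1)
  have heven := sua N P hP0 hP3 0 (N + 1)
  have hmin := min_bound hN0 hP0
  have s1 : ∑ a ∈ A.filter (fun a => a % 2 = 1), hh N a P / (a : ℝ) ^ 2 ≤
      ∑ a ∈ (Finset.range (N + 1)).filter (fun a => 1 ≤ a ∧ a % 2 = 1), hh N a P / (a : ℝ) ^ 2 := by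
    refine Finset.sum_le_sum_of_subset_of_nonneg ?_ fun a _ _ => hnn a
    intro a ha
    rw [Finset.mem_filter] at ha ⊢
    have := hA ha.1
    rw [Finset.mem_filter] at this
    exact ⟨this.1, this.2, ha.2⟩
  have s0 : ∑ a ∈ A.filter (fun a => ¬ a % 2 = 1), hh N a P / (a : ℝ) ^ 2 ≤
      ∑ a ∈ (Finset.range (N + 1)).filter (fun a => 1 ≤ a ∧ a % 2 = 0), hh N a P / (a : ℝ) ^ 2 := by
    refine Finset.sum_le_sum_of_subset_of_nonneg ?_ fun a _ _ => hnn a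
    intro a ha
    rw [Finset.mem_filter] at ha ⊢
    have := hA ha.1
    rw [Finset.mem_filter] at this
    exact ⟨this.1, this.2, by omega⟩
  have e3 : ∑ a ∈ A, (if a % 2 = 1 then (1 / 12 : ℝ) else 1 / 24) * (hh N a P / (a : ℝ) ^ 2) =
      1 / 12 * ∑ a ∈ A.filter (fun a => a % 2 = 1), hh N a P / (a : ℝ) ^ 2 +
      1 / 24 * ∑ a ∈ A.filter (fun a => ¬ a % 2 = 1), hh N a P / (a : ℝ) ^ 2 := by
    rw [← Finset.sum_filter_add_sum_filter_not A (fun a => a % 2 = 1), Finset.mul_sum,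
      Finset.mul_sum]
    congr 1
    · refine Finset.sum_congr rfl fun a ha => ?_
      rw [Finset.mem_filter] at ha
      rw [if_pos ha.2]
    · refine Finset.sum_congr rfl fun a ha => ?_
      rw [Finset.mem_filter] at ha
      rw [if_neg ha.2]
  rw [e3]
  have t1 := s1.trans hodd
  have t0 := s0.trans heven
  linarith

theorem pi_const : Real.pi / 4 * (1 / (2 * Real.sqrt 3)) / 8 ≤ 0.0285 := by
  have h1 := Real.pi_lt_d4
  have h2 : (1.73 : ℝ) ≤ Real.sqrt 3 := by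
    apply Real.le_sqrt_of_sq_le
    norm_num
  have h3 : 0 < Real.sqrt 3 := by linarith
  have h4 : 1 / (2 * Real.sqrt 3) ≤ 1 / (2 * 1.73) := by
    apply one_div_le_one_div_of_le (by norm_num)
    linarith
  have h5 : Real.pi / 4 * (1 / (2 * Real.sqrt 3)) ≤ 3.1416 / 4 * (1 / (2 * 1.73)) := by
    apply mul_le_mul (by linarith) h4 (by positivity) (by norm_num)
  calc Real.pi / 4 * (1 / (2 * Real.sqrt 3)) / 8 ≤ 3.1416 / 4 * (1 / (2 * 1.73)) / 8 := by linarith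
    _ ≤ 0.0285 := by norm_num

theorem cnt (sup : SupStmt) (sua : SuaStmt) (qnm : QnmStmt) : CntStmt := by
  classical
  refine ⟨3000 ^ 8, fun N hN => ?_⟩
  have hN1 : 1 ≤ N := le_trans (by norm_num) hN
  have hN0 : (0 : ℝ) < N := by exact_mod_cast hN1
  -- the eighth root
  set t : ℝ := (N : ℝ) ^ (1 / 8 : ℝ) with ht
  have ht0 : 0 < t := by positivity
  have ht8 : t ^ 8 = N := by
    rw [ht, ← Real.rpow_natCast, ← Real.rpow_mul hN0.le]
    norm_num
  have ht3000 : 3000 ≤ t := by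
    have h1 : ((3000 : ℝ)) ^ 8 ≤ t ^ 8 := by
      rw [ht8]
      exact_mod_cast hN
    exact le_of_pow_le_pow_left₀ (by norm_num) ht0.le h1
  have hsqrt : Real.sqrt N = t ^ 4 := by
    rw [← ht8, show t ^ 8 = (t ^ 4) ^ 2 by ring]
    exact Real.sqrt_sq (by positivity)
  have h34 : (N : ℝ) ^ (3 / 4 : ℝ) = t ^ 6 := by
    rw [ht, ← Real.rpow_natCast, ← Real.rpow_mul hN0.le]
    norm_num
  have hs14 : (Real.sqrt ((N : ℝ) / 3)) ^ (1 / 4 : ℝ) ≤ t := by
    have h1 : Real.sqrt ((N : ℝ) / 3) ≤ t ^ 4 := by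
      rw [← hsqrt]
      apply Real.sqrt_le_sqrt
      linarith
    calc (Real.sqrt ((N : ℝ) / 3)) ^ (1 / 4 : ℝ) ≤ (t ^ 4) ^ (1 / 4 : ℝ) :=
          Real.rpow_le_rpow (Real.sqrt_nonneg _) h1 (by norm_num)
      _ = t := by
          rw [← Real.rpow_natCast, ← Real.rpow_mul ht0.le]
          norm_num
  obtain ⟨hfin, hcard⟩ := qct N (Bd N) (fun a r ha => Bd_spec sup N a r ha)
  set A := (Finset.range (N + 1)).filter (fun a => 1 ≤ a ∧ 27 * a ^ 4 ≤ 16 * N) with hA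
  have hAt : ∀ a ∈ A, (a : ℝ) ≤ t ^ 2 := by
    intro a ha
    rw [hA, Finset.mem_filter] at ha
    have h1 : a ^ 4 ≤ N := by nlinarith [ha.2.2]
    have h2 : ((a : ℕ) : ℝ) ^ 4 ≤ (t ^ 2) ^ 4 := by
      rw [← pow_mul]
      norm_num
      rw [ht8]
      exact_mod_cast h1
    exact le_of_pow_le_pow_left₀ (by norm_num) (by positivity) h2
  have hAcard : (A.card : ℝ) ≤ t ^ 2 := by
    have h1 : A ⊆ Finset.Icc 1 ⌊t ^ 2⌋₊ := by
      intro a ha
      rw [Finset.mem_Icc]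
      have h2 := hAt a ha
      rw [hA, Finset.mem_filter] at ha
      exact ⟨ha.2.1, Nat.le_floor h2⟩
    have h3 := Finset.card_le_card h1
    rw [Nat.card_Icc] at h3
    have h4 : (A.card : ℝ) ≤ (⌊t ^ 2⌋₊ : ℝ) := by
      have : A.card ≤ ⌊t ^ 2⌋₊ := by omega
      exact_mod_cast this
    exact h4.trans (Nat.floor_le (by positivity))
  have hmain := main_term sua N hN1 A (by
    intro a ha
    rw [hA, Finset.mem_filter] at ha
    rw [Finset.mem_filter]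
    exact ⟨ha.1, ha.2.1⟩)
  have hsum : ∑ a ∈ A, 3 * (if a % 2 = 1 then (a : ℝ) else (a : ℝ) / 2) * Bd N a ≤
      ∑ a ∈ A, ((if a % 2 = 1 then (1 / 12 : ℝ) else 1 / 24) *
        (∫ P in (0 : ℝ)..Real.sqrt (N / 3), hh N a P / (a : ℝ) ^ 2) + (t ^ 4 + 3 * t ^ 2)) := by
    refine Finset.sum_le_sum fun a ha => ?_
    have h1 := hAt a ha
    rw [hA, Finset.mem_filter] at ha
    have h2 := term_le N a ha.2.1
    rw [hsqrt] at h2
    linarith
  rw [Finset.sum_add_distrib, Finset.sum_const, nsmul_eq_mul] at hsum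
  have herr : (A.card : ℝ) * (t ^ 4 + 3 * t ^ 2) ≤ t ^ 2 * (t ^ 4 + 3 * t ^ 2) :=
    mul_le_mul_of_nonneg_right hAcard (by positivity)
  have hquad : ({v | Quad N v}.ncard : ℝ) ≤ 0.0285 * N + 1 / 2 * t ^ 7 + (t ^ 6 + 3 * t ^ 4) := by
    have h1 : (1 : ℝ) / 8 * (Real.pi / 4 * (N / (2 * Real.sqrt 3)) +
        (N : ℝ) ^ (3 / 4 : ℝ) * (4 * (Real.sqrt (N / 3)) ^ (1 / 4 : ℝ))) ≤
        0.0285 * N + 1 / 2 * t ^ 7 := by
      have h2 : (N : ℝ) ^ (3 / 4 : ℝ) * (4 * (Real.sqrt (N / 3)) ^ (1 / 4 : ℝ)) ≤ 4 * t ^ 7 := by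
        rw [h34]
        have := mul_le_mul_of_nonneg_left hs14 (by positivity : (0 : ℝ) ≤ 4 * t ^ 6)
        calc t ^ 6 * (4 * (Real.sqrt (N / 3)) ^ (1 / 4 : ℝ))
            = 4 * t ^ 6 * (Real.sqrt (N / 3)) ^ (1 / 4 : ℝ) := by ring
          _ ≤ 4 * t ^ 6 * t := this
          _ = 4 * t ^ 7 := by ring
      have h3 := mul_le_mul_of_nonneg_right pi_const hN0.le
      have h4 : (1 : ℝ) / 8 * (Real.pi / 4 * (N / (2 * Real.sqrt 3))) =
          Real.pi / 4 * (1 / (2 * Real.sqrt 3)) / 8 * N := by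
        ring
      linarith
    linarith [hcard, hsum, herr, hmain]
  -- comparison
  have hle : ({m : ℕ | m ≤ N ∧ m % 24 = 7 ∧
      ∃ a b c d : ℤ, a ≠ 0 ∧ 0 < hP a b c ∧ 3 * (hP a b c) ^ 2 ≤ m ∧ hM a b c d = m}.ncard : ℝ) ≤
      ({v | Quad N v}.ncard : ℝ) := by
    have key : ∀ m : ℕ, m ∈ {m : ℕ | m ≤ N ∧ m % 24 = 7 ∧
      ∃ a b c d : ℤ, a ≠ 0 ∧ 0 < hP a b c ∧ 3 * (hP a b c) ^ 2 ≤ m ∧ hM a b c d = m} →
      ∃ v : ℤ × ℤ × ℤ × ℤ, Quad N v ∧ hM v.1 v.2.1 v.2.2.1 v.2.2.2 = m := by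
      rintro m ⟨h1, h2, a, b, c, d, h3, h4, h5, h6⟩
      exact qnm N m a b c d h1 h2 h3 h4 h5 h6
    choose! v hv1 hv2 using key
    have := Set.ncard_le_ncard_of_injOn v (fun m hm => hv1 m hm) (by
      intro m hm m' hm' h
      have h1 := hv2 m hm
      have h2 := hv2 m' hm'
      rw [h] at h1
      have h3 : (m : ℤ) = m' := h1.symm.trans h2
      exact_mod_cast h3) hfin
    exact_mod_cast this
  refine hle.trans (hquad.trans ?_)
  have h7 : t ^ 6 ≤ t ^ 7 := pow_le_pow_right₀ (by linarith) (by norm_num)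
  have h8 : t ^ 4 ≤ t ^ 7 := pow_le_pow_right₀ (by linarith) (by norm_num)
  have h9 : 3000 * t ^ 7 ≤ t ^ 8 := by
    have := mul_le_mul_of_nonneg_right ht3000 (by positivity : (0 : ℝ) ≤ t ^ 7)
    calc 3000 * t ^ 7 ≤ t * t ^ 7 := this
      _ = t ^ 8 := by ring
  rw [ht8] at h9
  linarith

end Pool.Agent.Leo3.H49
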