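import Pool.Agent.Leo3.Stmts

set_option autoImplicit false

open Module

namespace Pool.Agent.Leo3.H49

/-- Counting along fibres. -/
theorem ncard_fib {α ι : Type*} (S : Set α) (T : Finset ι) (f : α → ι) (g : ι → ℝ)
    (hf : ∀ x ∈ S, f x ∈ T) (hfin : ∀ i ∈ T, {x | x ∈ S ∧ f x = i}.Finite)
    (hg : ∀ i ∈ T, ({x | x ∈ S ∧ f x = i}.ncard : ℝ) ≤ g i) :
    S.Finite ∧ (S.ncard : ℝ) ≤ ∑ i ∈ T, g i := by
  classical
  have hS : S.Finite := by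
    have h1 : (⋃ i ∈ T, {x | x ∈ S ∧ f x = i}).Finite :=
      Set.Finite.biUnion T.finite_toSet fun i hi => hfin i hi
    refine h1.subset fun x hx => ?_
    simp only [Set.mem_iUnion]
    exact ⟨f x, hf x hx, hx, rfl⟩
  refine ⟨hS, ?_⟩
  have h1 : S.ncard = hS.toFinset.card := Set.ncard_eq_toFinset_card S hS
  have h2 : hS.toFinset.card = ∑ i ∈ T, (hS.toFinset.filter fun x => f x = i).card :=
    Finset.card_eq_sum_card_fiberwise fun x hx => hf x (hS.mem_toFinset.1 hx)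
  rw [h1, h2]
  push_cast
  refine Finset.sum_le_sum fun i hi => ?_
  refine le_trans (le_of_eq ?_) (hg i hi)
  have h3 : {x | x ∈ S ∧ f x = i} = ((hS.toFinset.filter fun x => f x = i : Finset α) : Set α) := by
    ext x
    simp
  rw [h3, Set.ncard_coe_finset]

/-- Integers in a real interval which are pairwise congruent modulo `M`. -/
theorem ncard_ap {α : Type*} (S : Set α) (y : α → ℤ) (M : ℕ) (hM : 0 < M) (u w : ℝ) (huw : u ≤ w)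
    (hinj : Set.InjOn y S) (hu : ∀ x ∈ S, u ≤ (y x : ℝ)) (hw : ∀ x ∈ S, (y x : ℝ) ≤ w)
    (hcong : ∀ x ∈ S, ∀ x' ∈ S, (M : ℤ) ∣ y x - y x') :
    S.Finite ∧ (S.ncard : ℝ) ≤ (w - u) / M + 1 := by
  have hMr : (0 : ℝ) < M := by exact_mod_cast hM
  have hnn : 0 ≤ (w - u) / M := div_nonneg (by linarith) hMr.le
  set K : ℕ := ⌊(w - u) / M⌋₊ with hK
  have hmaps : ∀ x ∈ S, ⌊((y x : ℝ) - u) / M⌋₊ ∈ (Finset.range (K + 1) : Set ℕ) := by
    intro x hx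
    rw [Finset.mem_coe, Finset.mem_range, Nat.lt_succ_iff]
    refine Nat.floor_le_floor ?_
    have := hw x hx
    gcongr
  have hinj' : Set.InjOn (fun x => ⌊((y x : ℝ) - u) / M⌋₊) S := by
    intro x hx x' hx' h
    apply hinj hx hx'
    obtain ⟨k, hk⟩ := hcong x hx x' hx'
    have h1 : 0 ≤ ((y x : ℝ) - u) / M := div_nonneg (by linarith [hu x hx]) hMr.le
    have h2 : 0 ≤ ((y x' : ℝ) - u) / M := div_nonneg (by linarith [hu x' hx']) hMr.le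
    have h3 := Nat.floor_le h1
    have h4 := Nat.floor_le h2
    have h5 := Nat.lt_floor_add_one (((y x : ℝ) - u) / M)
    have h6 := Nat.lt_floor_add_one (((y x' : ℝ) - u) / M)
    have h : ⌊((y x : ℝ) - u) / M⌋₊ = ⌊((y x' : ℝ) - u) / M⌋₊ := h
    rw [h] at h3 h5
    have h7 : ((y x : ℝ) - u) / M - ((y x' : ℝ) - u) / M < 1 := by linarith
    have h8 : -1 < ((y x : ℝ) - u) / M - ((y x' : ℝ) - u) / M := by linarith
    have h9 : ((y x : ℝ) - u) / M - ((y x' : ℝ) - u) / M = k := by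
      have hk' : (y x : ℝ) - y x' = M * k := by exact_mod_cast hk
      rw [← sub_div]
      have : (y x : ℝ) - u - ((y x' : ℝ) - u) = M * k := by linarith
      rw [this]
      field_simp
    rw [h9] at h7 h8
    have h10 : k < 1 := by exact_mod_cast h7
    have h11 : -1 < k := by exact_mod_cast h8
    have h12 : k = 0 := by omega
    rw [h12, mul_zero] at hk
    linarith
  have hfin : S.Finite := by
    refine Set.Finite.of_finite_image ?_ hinj'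
    exact (Finset.range (K + 1)).finite_toSet.subset (Set.image_subset_iff.2 hmaps)
  refine ⟨hfin, ?_⟩
  have h1 := Set.ncard_le_ncard_of_injOn _ hmaps hinj' (Finset.finite_toSet _)
  rw [Set.ncard_coe_finset, Finset.card_range] at h1
  have h2 : (S.ncard : ℝ) ≤ K + 1 := by exact_mod_cast h1
  have h3 : (K : ℝ) ≤ (w - u) / M := Nat.floor_le hnn
  linarith

/-- The syzygy. -/
theorem syz (a b c d : ℤ) :
    (2 * b ^ 3 - 3 * a * b * c + a ^ 2 * d) ^ 2 + a ^ 2 * hM a b c d = 4 * hP a b c ^ 3 := by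
  unfold hM hP
  ring

theorem mod8 : ∀ a b c d : Fin 8, hM (a.val : ℤ) b.val c.val d.val % 8 = 7 →
    (a.val % 2 = 0 ∧ b.val % 2 = 1 ∧ c.val % 2 = 1 ∧ d.val % 2 = 1) ∨
    (a.val % 2 = 1 ∧ b.val % 2 = 1 ∧ c.val % 2 = 1 ∧ d.val % 2 = 0) ∨
    (a.val % 2 = 1 ∧ b.val % 2 = 0 ∧ c.val % 2 = 0 ∧ d.val % 2 = 1) := by
  decide +kernel

/-- residue in `Fin n`. -/
def fz (n : ℕ) [NeZero n] (x : ℤ) : Fin n :=
  ⟨(x % (n : ℤ)).toNat, by
    have hn : (0 : ℤ) < n := by exact_mod_cast Nat.pos_of_ne_zero (NeZero.ne n)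
    have h1 := Int.emod_nonneg x hn.ne'
    have h2 := Int.emod_lt_of_pos x hn
    omega⟩

theorem fz_val (n : ℕ) [NeZero n] (x : ℤ) : ((fz n x).val : ℤ) = x % n := by
  have hn : (0 : ℤ) < n := by exact_mod_cast Nat.pos_of_ne_zero (NeZero.ne n)
  have h1 := Int.emod_nonneg x hn.ne'
  simp only [fz]
  exact Int.toNat_of_nonneg h1

theorem fz_modEq (n : ℕ) [NeZero n] (x : ℤ) : x ≡ ((fz n x).val : ℤ) [ZMOD n] := by
  rw [fz_val]
  exact (Int.mod_modEq x n).symm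

theorem hM_modEq {n a b c d a' b' c' d' : ℤ} (ha : a ≡ a' [ZMOD n]) (hb : b ≡ b' [ZMOD n])
    (hc : c ≡ c' [ZMOD n]) (hd : d ≡ d' [ZMOD n]) : hM a b c d ≡ hM a' b' c' d' [ZMOD n] := by
  unfold hM
  exact (((Int.ModEq.refl 4).mul ((hb.pow 2).sub (ha.mul hc))).mul
    ((hc.pow 2).sub (hb.mul hd))).sub (((hb.mul hc).sub (ha.mul hd)).pow 2)

/-- parities. -/
theorem par {a b c d : ℤ} (h : hM a b c d % 24 = 7) :
    (a % 2 = 0 ∧ b % 2 = 1 ∧ c % 2 = 1 ∧ d % 2 = 1) ∨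
    (a % 2 = 1 ∧ b % 2 = 1 ∧ c % 2 = 1 ∧ d % 2 = 0) ∨
    (a % 2 = 1 ∧ b % 2 = 0 ∧ c % 2 = 0 ∧ d % 2 = 1) := by
  have h1 : hM (fz 8 a).val (fz 8 b).val (fz 8 c).val (fz 8 d).val % 8 = 7 := by
    have h2 := hM_modEq (fz_modEq 8 a) (fz_modEq 8 b) (fz_modEq 8 c) (fz_modEq 8 d)
    have h3 : hM a b c d % 8 = 7 := by omega
    have h4 : hM a b c d % 8 = hM (fz 8 a).val (fz 8 b).val (fz 8 c).val (fz 8 d).val % 8 := h2
    rw [← h4]
    exact h3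
  have h5 := mod8 _ _ _ _ h1
  have ha := fz_val 8 a
  have hb := fz_val 8 b
  have hc := fz_val 8 c
  have hd := fz_val 8 d
  omega

/-- residues mod 3 of `(c, d)` for given residues of `(a, b)`. -/
def R3 (a b : Fin 3) : Finset (Fin 3 × Fin 3) :=
  Finset.univ.filter fun p => hM (a.val : ℤ) b.val p.1.val p.2.val % 3 = 1

theorem R3_card : ∀ a b : Fin 3, (R3 a b).card ≤ 3 := by
  decide +kernel

theorem mem_R3 {a b c d : ℤ} (h : hM a b c d % 24 = 7) : (fz 3 c, fz 3 d) ∈ R3 (fz 3 a) (fz 3 b) := by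
  unfold R3
  rw [Finset.mem_filter]
  refine ⟨Finset.mem_univ _, ?_⟩
  have h2 : hM a b c d % 3 = hM (fz 3 a).val (fz 3 b).val (fz 3 c).val (fz 3 d).val % 3 :=
    hM_modEq (fz_modEq 3 a) (fz_modEq 3 b) (fz_modEq 3 c) (fz_modEq 3 d)
  simp only
  rw [← h2]
  omega

/-- admissible `b`. -/
noncomputable def Tb (a : ℕ) : Finset ℤ :=
  (Finset.Icc (-(a : ℤ)) a).filter fun b => -(a : ℤ) < 2 * b ∧ 2 * b ≤ a ∧ (a % 2 = 1 ∨ b % 2 = 1)

theorem Tb_card (a : ℕ) (ha : 1 ≤ a) :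
    ((Tb a).card : ℝ) ≤ if a % 2 = 1 then (a : ℝ) else (a : ℝ) / 2 := by
  split_ifs with h
  · have h1 : (Tb a).card ≤ (Finset.Icc (-((a : ℤ) / 2)) ((a : ℤ) / 2)).card := by
      refine Finset.card_le_card fun b hb => ?_
      rw [Tb, Finset.mem_filter] at hb
      rw [Finset.mem_Icc]
      omega
    rw [Int.card_Icc] at h1
    have h2 : (Tb a).card ≤ a := by omega
    exact_mod_cast h2
  · have h1 : (Tb a).card ≤ (Finset.range (a / 2)).card := by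
      refine Finset.card_le_card_of_injOn (fun b => ((b + a / 2 - 1) / 2).toNat) ?_ ?_
      · intro b hb
        rw [Finset.mem_coe, Tb, Finset.mem_filter] at hb
        rw [Finset.mem_coe, Finset.mem_range]
        have h3 : b % 2 = 1 := by omega
        show ((b + (a : ℤ) / 2 - 1) / 2).toNat < a / 2
        omega
      · intro b hb b' hb' hbb
        rw [Finset.mem_coe, Tb, Finset.mem_filter] at hb hb'
        have h3 : b % 2 = 1 := by omega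
        have h4 : b' % 2 = 1 := by omega
        simp only at hbb
        omega
    rw [Finset.card_range] at h1
    have h2 : 2 * (Tb a).card ≤ a := by omega
    have h3 : 2 * ((Tb a).card : ℝ) ≤ a := by exact_mod_cast h2
    linarith

theorem hh_nonneg {N a P : ℝ} (hN : 3 * P ^ 2 ≤ N) : 0 ≤ hh N a P := by
  unfold hh
  rw [sub_nonneg]
  apply Real.sqrt_le_sqrt
  have h1 : a ^ 2 * (3 * P ^ 2) ≤ a ^ 2 * N := mul_le_mul_of_nonneg_left hN (sq_nonneg a)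
  nlinarith [h1]

/-- basic bounds for a quadruple. -/
theorem quad_bounds {N : ℕ} {a b c d : ℤ} (h : Quad N (a, b, c, d)) :
    3 * (hP a b c) ^ 2 ≤ N ∧ 3 * a ^ 2 ≤ 4 * hP a b c ∧ 27 * a ^ 4 ≤ 16 * N := by
  obtain ⟨ha, hb1, hb2, hx, hP0, h3, hN, h24⟩ := h
  simp only at ha hb1 hb2 hx hP0 h3 hN h24
  have hs := syz a b c d
  have h1 : 3 * (hP a b c) ^ 2 ≤ N := h3.trans hN
  have h2 : a ^ 2 * (3 * hP a b c ^ 2) ≤ 4 * hP a b c ^ 3 := by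
    have h4 : a ^ 2 * (3 * hP a b c ^ 2) ≤ a ^ 2 * hM a b c d :=
      mul_le_mul_of_nonneg_left h3 (sq_nonneg a)
    have h5 := sq_nonneg (2 * b ^ 3 - 3 * a * b * c + a ^ 2 * d)
    linarith
  have h6 : 3 * a ^ 2 ≤ 4 * hP a b c := by
    have h7 : 0 < hP a b c ^ 2 := by positivity
    have h8 : hP a b c ^ 2 * (3 * a ^ 2) ≤ hP a b c ^ 2 * (4 * hP a b c) := by
      nlinarith [h2]
    exact le_of_mul_le_mul_left h8 h7
  refine ⟨h1, h6, ?_⟩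
  have h9 : 0 ≤ 3 * a ^ 2 := by positivity
  have h10 : (3 * a ^ 2) * (3 * a ^ 2) ≤ (4 * hP a b c) * (4 * hP a b c) :=
    mul_le_mul h6 h6 h9 (by linarith)
  nlinarith [h10, h1]

/-- level `P`. -/
theorem lvP (N i : ℕ) (hi : 1 ≤ i) (b : ℤ) (p : Fin 3 × Fin 3) (P : ℕ) (hP3 : 3 * P ^ 2 ≤ N) :
    {v : ℤ × ℤ × ℤ × ℤ | Quad N v ∧ v.1 = i ∧ v.2.1 = b ∧ (fz 3 v.2.2.1, fz 3 v.2.2.2) = p ∧
      (hP v.1 v.2.1 v.2.2.1).toNat = P}.Finite ∧
    ({v : ℤ × ℤ × ℤ × ℤ | Quad N v ∧ v.1 = i ∧ v.2.1 = b ∧ (fz 3 v.2.2.1, fz 3 v.2.2.2) = p ∧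
      (hP v.1 v.2.1 v.2.2.1).toNat = P}.ncard : ℝ) ≤ hh N i P / (6 * (i : ℝ) ^ 2) + 1 := by
  have hi0 : (i : ℤ) ≠ 0 := by positivity
  have hP3' : (3 : ℝ) * (P : ℝ) ^ 2 ≤ N := by exact_mod_cast hP3
  have hmain := ncard_ap (α := ℤ × ℤ × ℤ × ℤ)
    {v : ℤ × ℤ × ℤ × ℤ | Quad N v ∧ v.1 = i ∧ v.2.1 = b ∧ (fz 3 v.2.2.1, fz 3 v.2.2.2) = p ∧
      (hP v.1 v.2.1 v.2.2.1).toNat = P}
    (fun v => 2 * v.2.1 ^ 3 - 3 * v.1 * v.2.1 * v.2.2.1 + v.1 ^ 2 * v.2.2.2) (6 * i ^ 2)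
    (by positivity) (Real.sqrt (4 * (P : ℝ) ^ 3 - (i : ℝ) ^ 2 * N))
    (Real.sqrt (4 * (P : ℝ) ^ 3 - 3 * (i : ℝ) ^ 2 * (P : ℝ) ^ 2)) ?_ ?_ ?_ ?_ ?_
  · refine ⟨hmain.1, hmain.2.trans (le_of_eq ?_)⟩
    unfold hh
    push_cast
    ring
  · have h := hh_nonneg (a := i) hP3'
    unfold hh at h
    linarith
  · -- injectivity
    rintro ⟨a1, b1, c1, d1⟩ ⟨hq1, ha1, hb1, hp1, hP1⟩ ⟨a2, b2, c2, d2⟩ ⟨hq2, ha2, hb2, hp2, hP2⟩ hxx
    simp only at ha1 hb1 hp1 hP1 ha2 hb2 hp2 hP2 hxx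
    subst ha1 hb1
    have e1 : (hP i b1 c1).toNat = (hP i b1 c2).toNat := by
      rw [hP1, ← hP2, ha2, hb2]
    have hpos1 : 0 < hP i b1 c1 := hq1.2.2.2.2.1
    have hpos2 : 0 < hP i b1 c2 := by
      have := hq2.2.2.2.2.1
      simp only [ha2, hb2] at this
      exact this
    have e2 : hP i b1 c1 = hP i b1 c2 := by omega
    have e3 : c1 = c2 := by
      unfold hP at e2
      have : (i : ℤ) * c1 = i * c2 := by linarith
      exact mul_left_cancel₀ hi0 this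
    have e4 : d1 = d2 := by
      rw [ha2, hb2, e3] at hxx
      have : (i : ℤ) ^ 2 * d1 = (i : ℤ) ^ 2 * d2 := by linarith
      exact mul_left_cancel₀ (pow_ne_zero 2 hi0) this
    rw [ha2, hb2, e3, e4]
  · -- lower bound
    rintro ⟨a, b', c, d⟩ ⟨hq, ha, hb, hp, hP1⟩
    simp only at ha hb hp hP1
    have hx0 : 0 ≤ 2 * b' ^ 3 - 3 * a * b' * c + a ^ 2 * d := hq.2.2.2.1
    have hMN : hM a b' c d ≤ N := hq.2.2.2.2.2.2.1
    have hpos : 0 < hP a b' c := hq.2.2.2.2.1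
    have hPe : hP a b' c = P := by omega
    have hs := syz a b' c d
    rw [hPe] at hs
    have h1 : (4 * (P : ℤ) ^ 3 - (i : ℤ) ^ 2 * N) ≤
        (2 * b' ^ 3 - 3 * a * b' * c + a ^ 2 * d) ^ 2 := by
      have h2 : a ^ 2 * hM a b' c d ≤ a ^ 2 * N := mul_le_mul_of_nonneg_left hMN (sq_nonneg a)
      rw [ha] at h2 hs ⊢
      linarith
    have h3 : (4 * (P : ℝ) ^ 3 - (i : ℝ) ^ 2 * N) ≤
        (((2 * b' ^ 3 - 3 * a * b' * c + a ^ 2 * d : ℤ)) : ℝ) ^ 2 := by exact_mod_cast h1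
    have h4 : (0 : ℝ) ≤ ((2 * b' ^ 3 - 3 * a * b' * c + a ^ 2 * d : ℤ) : ℝ) := by exact_mod_cast hx0
    exact Real.sqrt_le_iff.2 ⟨h4, h3⟩
  · -- upper bound
    rintro ⟨a, b', c, d⟩ ⟨hq, ha, hb, hp, hP1⟩
    simp only at ha hb hp hP1
    have h3P : 3 * (hP a b' c) ^ 2 ≤ hM a b' c d := hq.2.2.2.2.2.1
    have hpos : 0 < hP a b' c := hq.2.2.2.2.1
    have hPe : hP a b' c = P := by omega
    have hs := syz a b' c d
    rw [hPe] at hs h3P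
    have h1 : (2 * b' ^ 3 - 3 * a * b' * c + a ^ 2 * d) ^ 2 ≤
        4 * (P : ℤ) ^ 3 - 3 * (i : ℤ) ^ 2 * (P : ℤ) ^ 2 := by
      have h2 : a ^ 2 * (3 * (P : ℤ) ^ 2) ≤ a ^ 2 * hM a b' c d :=
        mul_le_mul_of_nonneg_left h3P (sq_nonneg a)
      rw [ha] at h2 hs ⊢
      linarith
    have h3 : (((2 * b' ^ 3 - 3 * a * b' * c + a ^ 2 * d : ℤ)) : ℝ) ^ 2 ≤
        4 * (P : ℝ) ^ 3 - 3 * (i : ℝ) ^ 2 * (P : ℝ) ^ 2 := by exact_mod_cast h1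
    exact Real.le_sqrt_of_sq_le h3
  · -- congruences
    rintro ⟨a1, b1, c1, d1⟩ ⟨hq1, ha1, hb1, hp1, hP1⟩ ⟨a2, b2, c2, d2⟩ ⟨hq2, ha2, hb2, hp2, hP2⟩
    simp only at ha1 hb1 hp1 hP1 ha2 hb2 hp2 hP2
    have hpos1 : 0 < hP a1 b1 c1 := hq1.2.2.2.2.1
    have hpos2 : 0 < hP a2 b2 c2 := hq2.2.2.2.2.1
    have h241 : hM a1 b1 c1 d1 % 24 = 7 := hq1.2.2.2.2.2.2.2
    have h242 : hM a2 b2 c2 d2 % 24 = 7 := hq2.2.2.2.2.2.2.2
    have e2 : hP a1 b1 c1 = hP a2 b2 c2 := by omega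
    have e3 : c1 = c2 := by
      rw [ha1, hb1, ha2, hb2] at e2
      unfold hP at e2
      have : (i : ℤ) * c1 = i * c2 := by linarith
      exact mul_left_cancel₀ hi0 this
    have p1 := par h241
    have p2 := par h242
    rw [ha1, hb1] at p1
    rw [ha2, hb2] at p2
    have q1 : fz 3 d1 = fz 3 d2 := by
      have := congrArg Prod.snd (hp1.trans hp2.symm)
      exact this
    have q2 := fz_val 3 d1
    have q3 := fz_val 3 d2
    rw [q1] at q2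
    have q4 : (d1 - d2) % 6 = 0 := by omega
    obtain ⟨k, hk⟩ := Int.dvd_of_emod_eq_zero q4
    refine ⟨k, ?_⟩
    simp only
    rw [ha1, hb1, ha2, hb2, e3]
    push_cast
    have : (i : ℤ) ^ 2 * d1 - (i : ℤ) ^ 2 * d2 = (i : ℤ) ^ 2 * (6 * k) := by
      rw [← mul_sub, hk]
    linarith

/-- level of residues. -/
theorem lvR (N i : ℕ) (hi : 1 ≤ i) (b : ℤ) (p : Fin 3 × Fin 3) (B : ℝ)
    (hB : ∀ r : ℕ, ∑ P ∈ (Finset.range (N + 1)).filter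
        (fun P => 1 ≤ P ∧ 3 * P ^ 2 ≤ N ∧ P % (6 * i) = r), (hh N i P / (6 * (i : ℝ) ^ 2) + 1) ≤ B) :
    {v : ℤ × ℤ × ℤ × ℤ | Quad N v ∧ v.1 = i ∧ v.2.1 = b ∧
      (fz 3 v.2.2.1, fz 3 v.2.2.2) = p}.Finite ∧
    ({v : ℤ × ℤ × ℤ × ℤ | Quad N v ∧ v.1 = i ∧ v.2.1 = b ∧
      (fz 3 v.2.2.1, fz 3 v.2.2.2) = p}.ncard : ℝ) ≤ B := by
  classical
  set S : Set (ℤ × ℤ × ℤ × ℤ) := {v : ℤ × ℤ × ℤ × ℤ | Quad N v ∧ v.1 = i ∧ v.2.1 = b ∧
      (fz 3 v.2.2.1, fz 3 v.2.2.2) = p} with hS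
  rcases S.eq_empty_or_nonempty with hem | ⟨v0, hv0⟩
  · rw [hem]
    refine ⟨Set.finite_empty, ?_⟩
    rw [Set.ncard_empty, Nat.cast_zero]
    refine le_trans ?_ (hB 0)
    refine Finset.sum_nonneg fun P hP => ?_
    rw [Finset.mem_filter] at hP
    have h1 : (3 : ℝ) * (P : ℝ) ^ 2 ≤ N := by exact_mod_cast hP.2.2.1
    have h2 := hh_nonneg (a := i) h1
    positivity
  obtain ⟨a0, b0, c0, d0⟩ := v0
  obtain ⟨hq0, ha0, hb0, hp0⟩ := hv0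
  simp only at ha0 hb0 hp0
  set r : ℕ := (hP a0 b0 c0).toNat % (6 * i) with hr
  have hfib := ncard_fib S ((Finset.range (N + 1)).filter
        (fun P => 1 ≤ P ∧ 3 * P ^ 2 ≤ N ∧ P % (6 * i) = r))
      (fun v => (hP v.1 v.2.1 v.2.2.1).toNat) (fun P => hh N i P / (6 * (i : ℝ) ^ 2) + 1) ?_ ?_ ?_
  · exact ⟨hfib.1, hfib.2.trans (hB r)⟩
  · rintro ⟨a, b', c, d⟩ ⟨hq, ha, hb, hp⟩
    simp only at ha hb hp
    have hpos : 0 < hP a b' c := hq.2.2.2.2.1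
    have hpos0 : 0 < hP a0 b0 c0 := hq0.2.2.2.2.1
    have hbd := (quad_bounds hq).1
    obtain ⟨P, hPe⟩ : ∃ P : ℕ, hP a b' c = P := ⟨(hP a b' c).toNat, by omega⟩
    obtain ⟨P0, hPe0⟩ : ∃ P : ℕ, hP a0 b0 c0 = P := ⟨(hP a0 b0 c0).toNat, by omega⟩
    have ePt : (hP a b' c).toNat = P := by omega
    have eP0 : (hP a0 b0 c0).toNat = P0 := by omega
    simp only [Finset.mem_filter, Finset.mem_range]
    rw [ePt]
    rw [hPe] at hbd hpos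
    have hbd' : 3 * P ^ 2 ≤ N := by exact_mod_cast hbd
    have hpos' : 1 ≤ P := by omega
    have hPN : P < N + 1 := by nlinarith
    refine ⟨hPN, hpos', hbd', ?_⟩
    rw [hr, eP0]
    -- congruence
    have h24 : hM a b' c d % 24 = 7 := hq.2.2.2.2.2.2.2
    have h240 : hM a0 b0 c0 d0 % 24 = 7 := hq0.2.2.2.2.2.2.2
    have p1 := par h24
    have p2 := par h240
    rw [ha, hb] at p1
    rw [ha0, hb0] at p2
    have q1 : fz 3 c = fz 3 c0 := congrArg Prod.fst (hp.trans hp0.symm)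
    have q2 := fz_val 3 c
    have q3 := fz_val 3 c0
    rw [q1] at q2
    have q4 : (c0 - c) % 6 = 0 := by omega
    obtain ⟨k, hk⟩ := Int.dvd_of_emod_eq_zero q4
    have e1 : (P : ℤ) - P0 = (6 * i : ℕ) * k := by
      rw [← hPe, ← hPe0, ha, hb, ha0, hb0]
      unfold hP
      push_cast
      have : (i : ℤ) * c0 - i * c = i * (6 * k) := by rw [← mul_sub, hk]
      linarith
    have e2 : (P0 : ℤ) ≡ P [ZMOD ((6 * i : ℕ) : ℤ)] :=
      (Int.modEq_iff_dvd).2 ⟨k, e1⟩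
    have e3 : P0 ≡ P [MOD (6 * i)] := (Int.natCast_modEq_iff).1 e2
    exact e3.symm
  · intro P hP
    rw [Finset.mem_filter] at hP
    have h1 := (lvP N i hi b p P hP.2.2.1).1
    refine h1.subset ?_
    rintro v ⟨⟨h2, h3, h4, h5⟩, h6⟩
    exact ⟨h2, h3, h4, h5, h6⟩
  · intro P hP
    rw [Finset.mem_filter] at hP
    have h1 := (lvP N i hi b p P hP.2.2.1).2
    refine le_trans (le_of_eq ?_) h1
    congr 2
    ext v
    constructor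
    · rintro ⟨⟨h2, h3, h4, h5⟩, h6⟩
      exact ⟨h2, h3, h4, h5, h6⟩
    · rintro ⟨h2, h3, h4, h5, h6⟩
      exact ⟨⟨h2, h3, h4, h5⟩, h6⟩

/-- level `b`. -/
theorem lvB (N i : ℕ) (hi : 1 ≤ i) (b : ℤ) (B : ℝ)
    (hB : ∀ r : ℕ, ∑ P ∈ (Finset.range (N + 1)).filter
        (fun P => 1 ≤ P ∧ 3 * P ^ 2 ≤ N ∧ P % (6 * i) = r), (hh N i P / (6 * (i : ℝ) ^ 2) + 1) ≤ B)
    (hB0 : 0 ≤ B) :
    {v : ℤ × ℤ × ℤ × ℤ | Quad N v ∧ v.1 = i ∧ v.2.1 = b}.Finite ∧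
    ({v : ℤ × ℤ × ℤ × ℤ | Quad N v ∧ v.1 = i ∧ v.2.1 = b}.ncard : ℝ) ≤ 3 * B := by
  classical
  have hfib := ncard_fib {v : ℤ × ℤ × ℤ × ℤ | Quad N v ∧ v.1 = i ∧ v.2.1 = b}
      (R3 (fz 3 i) (fz 3 b)) (fun v => (fz 3 v.2.2.1, fz 3 v.2.2.2)) (fun _ => B) ?_ ?_ ?_
  · refine ⟨hfib.1, hfib.2.trans ?_⟩
    rw [Finset.sum_const, nsmul_eq_mul]
    have h1 : ((R3 (fz 3 i) (fz 3 b)).card : ℝ) ≤ 3 := by exact_mod_cast R3_card _ _
    exact mul_le_mul_of_nonneg_right h1 hB0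
  · rintro ⟨a, b', c, d⟩ ⟨hq, ha, hb⟩
    simp only at ha hb
    have h24 : hM a b' c d % 24 = 7 := hq.2.2.2.2.2.2.2
    have := mem_R3 h24
    rw [ha, hb] at this
    exact this
  · intro p hp
    have h1 := (lvR N i hi b p B hB).1
    refine h1.subset ?_
    rintro v ⟨⟨h2, h3, h4⟩, h5⟩
    exact ⟨h2, h3, h4, h5⟩
  · intro p hp
    have h1 := (lvR N i hi b p B hB).2
    refine le_trans (le_of_eq ?_) h1
    congr 2
    ext v
    constructor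
    · rintro ⟨⟨h2, h3, h4⟩, h5⟩
      exact ⟨h2, h3, h4, h5⟩
    · rintro ⟨h2, h3, h4, h5⟩
      exact ⟨⟨h2, h3, h4⟩, h5⟩

/-- level `a`. -/
theorem lvA (N i : ℕ) (hi : 1 ≤ i) (B : ℝ)
    (hB : ∀ r : ℕ, ∑ P ∈ (Finset.range (N + 1)).filter
        (fun P => 1 ≤ P ∧ 3 * P ^ 2 ≤ N ∧ P % (6 * i) = r), (hh N i P / (6 * (i : ℝ) ^ 2) + 1) ≤ B)
    (hB0 : 0 ≤ B) :
    {v : ℤ × ℤ × ℤ × ℤ | Quad N v ∧ v.1.toNat = i}.Finite ∧
    ({v : ℤ × ℤ × ℤ × ℤ | Quad N v ∧ v.1.toNat = i}.ncard : ℝ) ≤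
      3 * (if i % 2 = 1 then (i : ℝ) else (i : ℝ) / 2) * B := by
  classical
  have hfib := ncard_fib {v : ℤ × ℤ × ℤ × ℤ | Quad N v ∧ v.1.toNat = i}
      (Tb i) (fun v => v.2.1) (fun _ => 3 * B) ?_ ?_ ?_
  · refine ⟨hfib.1, hfib.2.trans ?_⟩
    rw [Finset.sum_const, nsmul_eq_mul]
    have h1 := Tb_card i hi
    have h2 := mul_le_mul_of_nonneg_right h1 (by positivity : (0 : ℝ) ≤ 3 * B)
    linarith
  · rintro ⟨a, b', c, d⟩ ⟨hq, ha⟩
    simp only at ha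
    have h24 : hM a b' c d % 24 = 7 := hq.2.2.2.2.2.2.2
    have hb1 : -a < 2 * b' := hq.2.1
    have hb2 : 2 * b' ≤ a := hq.2.2.1
    have ha1 : 1 ≤ a := hq.1
    have p1 := par h24
    simp only
    rw [Tb, Finset.mem_filter, Finset.mem_Icc]
    omega
  · intro b hb
    have h1 := (lvB N i hi b B hB hB0).1
    refine h1.subset ?_
    rintro v ⟨⟨h2, h3⟩, h4⟩
    have h5 : 1 ≤ v.1 := h2.1
    exact ⟨h2, by omega, h4⟩
  · intro b hb
    have h1 := (lvB N i hi b B hB hB0).2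
    refine le_trans (le_of_eq ?_) h1
    congr 2
    ext v
    constructor
    · rintro ⟨⟨h2, h3⟩, h4⟩
      have h5 : 1 ≤ v.1 := h2.1
      exact ⟨h2, by omega, h4⟩
    · rintro ⟨h2, h3, h4⟩
      exact ⟨⟨h2, by omega⟩, h4⟩

theorem qct : QctStmt := by
  classical
  intro N B hB
  have hB0 : ∀ a : ℕ, 1 ≤ a → 0 ≤ B a := by
    intro a ha
    refine le_trans ?_ (hB a 0 ha)
    refine Finset.sum_nonneg fun P hP => ?_
    rw [Finset.mem_filter] at hP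
    have h1 : (3 : ℝ) * (P : ℝ) ^ 2 ≤ N := by exact_mod_cast hP.2.2.1
    have h2 := hh_nonneg (a := a) h1
    positivity
  refine ncard_fib {v | Quad N v} _ (fun v => v.1.toNat) _ ?_ ?_ ?_
  · rintro ⟨a, b, c, d⟩ hq
    have h1 : 1 ≤ a := hq.1
    have h2 := (quad_bounds hq).2.2
    obtain ⟨i, hi⟩ : ∃ i : ℕ, a = i := ⟨a.toNat, by omega⟩
    have h3 : a.toNat = i := by omega
    simp only [Finset.mem_filter, Finset.mem_range]
    rw [h3]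
    rw [hi] at h2
    have h4 : 27 * i ^ 4 ≤ 16 * N := by exact_mod_cast h2
    have h5 : 1 ≤ i := by omega
    have h6 : i ≤ i ^ 4 := Nat.le_self_pow (by norm_num) i
    refine ⟨by omega, h5, h4⟩
  · intro i hi
    rw [Finset.mem_filter] at hi
    exact (lvA N i hi.2.1 (B i) (fun r => hB i r hi.2.1) (hB0 i hi.2.1)).1
  · intro i hi
    rw [Finset.mem_filter] at hi
    exact (lvA N i hi.2.1 (B i) (fun r => hB i r hi.2.1) (hB0 i hi.2.1)).2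

end Pool.Agent.Leo3.H49
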