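import Pool.Agent.Leo3.Stmts

set_option autoImplicit false

open NumberField Module Polynomial

namespace Pool.Agent.Leo3.H49

/-- A model of the quadratic field `ℚ(√D)`. -/
theorem exists_quad (D : ℤ) (hD : ∀ x : ℚ, x ^ 2 ≠ D) :
    ∃ (F : Type) (_ : Field F) (_ : NumberField F) (s : F), finrank ℚ F = 2 ∧ s ^ 2 = (D : F) := by
  set f : ℚ[X] := X ^ 2 - C (D : ℚ) with hf
  have hmon : f.Monic := monic_X_pow_sub_C _ (by norm_num)
  have hdeg : f.natDegree = 2 := natDegree_X_pow_sub_C
  have hirr : Irreducible f := by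
    rw [Polynomial.irreducible_iff_roots_eq_zero_of_degree_le_three (by omega) (by omega)]
    rw [Multiset.eq_zero_iff_forall_notMem]
    intro x hx
    rw [mem_roots hmon.ne_zero, IsRoot.def, hf] at hx
    simp only [eval_sub, eval_pow, eval_X, eval_C] at hx
    exact hD x (by linarith)
  haveI : Fact (Irreducible f) := ⟨hirr⟩
  let F := AdjoinRoot f
  haveI hc : CharZero F := charZero_of_injective_algebraMap (algebraMap ℚ F).injective
  haveI hfin : @FiniteDimensional ℚ F _ _ (AdjoinRoot.instAlgebra (S := ℚ) f).toModule :=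
    (AdjoinRoot.powerBasis hirr.ne_zero).finite
  have heq : (AdjoinRoot.instAlgebra (S := ℚ) f) = (DivisionRing.toRatAlgebra : Algebra ℚ F) :=
    Subsingleton.elim _ _
  have hfin' : @FiniteDimensional ℚ F _ _ (DivisionRing.toRatAlgebra : Algebra ℚ F).toModule :=
    heq ▸ hfin
  have hrank : @finrank ℚ F _ _ (AdjoinRoot.instAlgebra (S := ℚ) f).toModule = 2 := by
    rw [(AdjoinRoot.powerBasis hirr.ne_zero).finrank, AdjoinRoot.powerBasis_dim, hdeg]
  have hrank' : @finrank ℚ F _ _ (DivisionRing.toRatAlgebra : Algebra ℚ F).toModule = 2 :=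
    heq ▸ hrank
  refine ⟨F, inferInstance, @NumberField.mk F _ hc hfin', AdjoinRoot.root f, hrank', ?_⟩
  have h := AdjoinRoot.eval₂_root f
  rw [hf] at h
  simp only [eval₂_sub, eval₂_pow, eval₂_X, eval₂_C] at h
  rw [sub_eq_zero] at h
  rw [h]
  exact map_intCast _ D

end Pool.Agent.Leo3.H49
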