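import Pool.Agent.Helper49_Leo3.All
import Pool.Agent.Helper76_Leo3.Nmf
import Pool.Agent.Helper93_Leo3.Leo

set_option autoImplicit false

open NumberField Module Pool.Agent.Helper85_Leo

namespace Pool.Agent.Leo3.H49

theorem top :
    ∃ X₀ : ℝ, ∀ X : ℝ, X₀ ≤ X →
      1 / 216000 * X ≤ ({D : ℤ | 0 < D ∧ (D : ℝ) ≤ X ∧
        ∃ (K : Type) (_ : Field K) (_ : NumberField K),
          finrank ℚ K = 3 ∧ IsTotallyReal K ∧ ¬ IsGalois ℚ K ∧ discr K = D ∧
          (∀ (E : Type) [Field E] [NumberField E] [Algebra K E] [IsGalois K E] (k : ℕ),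
            finrank K E = 3 ^ k →
            (∀ (P : Ideal (𝓞 E)) [P.IsPrime], P ≠ ⊥ → (6 : 𝓞 E) ∉ P →
              Algebra.IsUnramifiedAt (𝓞 K) P) → LeopoldtAt E 3) ∧
          ∃ (L : Type) (_ : Field L) (_ : NumberField L) (_ : Algebra K L),
            finrank K L = 2 ∧ IsGalois ℚ L ∧
            (∀ (E : Type) [Field E] [NumberField E] [Algebra L E] [IsGalois L E] (k : ℕ),
              finrank L E = 3 ^ k →
              (∀ (P : Ideal (𝓞 E)) [P.IsPrime], P ≠ ⊥ → (6 : 𝓞 E) ∉ P →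
                Algebra.IsUnramifiedAt (𝓞 L) P) → LeopoldtAt E 3)}.ncard : ℝ) :=
  all_of (H93.leo H65.crt) H76.nmf

end Pool.Agent.Leo3.H49
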